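import Mathlib

/-!
# Project SV (MP_c38bc8_al): realization of support varieties for Lie superalgebras

Statement file.  Paper proof (helper450).  `g_0` acts on `S(g_1^*)` by derivations, so `F = f^p` is
`g_0`-invariant for every homogeneous `f`; it defines a class in the relative cohomology
`H^n(g, g_0; k)`.  The relative Koszul resolution `P_n = U(g) ⊗_{U(g_0)} D^n(g_1)` consists of
FINITE dimensional modules which are acyclic for every `0 ≠ x` with `[x,x] = 0`, and the relative
Carlson module `L_F = ∂ (ker (F : P_n → k)) ⊆ P_{n-1}` is acyclic for `x` iff `f x ≠ 0`.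
-/

set_option autoImplicit false

universe u

namespace Pool.Agent.U450.SV

/-- A Lie superalgebra `g = g0 ⊕ g1` over a field `k` of characteristic different from two (in
characteristic three the axiom `jac111` is part of the definition). -/
structure LieSuper (k g0 g1 : Type u) [Field k] [AddCommGroup g0] [Module k g0]
    [AddCommGroup g1] [Module k g1] where
  /-- the bracket of two even elements -/
  b00 : g0 →ₗ[k] g0 →ₗ[k] g0
  /-- the bracket of an even and an odd element -/
  b01 : g0 →ₗ[k] g1 →ₗ[k] g1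
  /-- the bracket of two odd elements -/
  b11 : g1 →ₗ[k] g1 →ₗ[k] g0
  skew : ∀ a, b00 a a = 0
  symm : ∀ x y, b11 x y = b11 y x
  jac000 : ∀ a b c, b00 a (b00 b c) = b00 (b00 a b) c + b00 b (b00 a c)
  jac001 : ∀ a b x, b01 a (b01 b x) = b01 (b00 a b) x + b01 b (b01 a x)
  jac011 : ∀ a x y, b00 a (b11 x y) = b11 (b01 a x) y + b11 x (b01 a y)
  jac111 : ∀ x, b01 (b11 x x) x = 0

section
variable {k g0 g1 : Type u} [Field k] [AddCommGroup g0] [Module k g0]
  [AddCommGroup g1] [Module k g1]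

/-- A supermodule over the Lie superalgebra `L` on the `k`-space `M`: the `ℤ/2`-grading is given by
the involution `σ` (`M_0` and `M_1` are its eigenspaces for `1` and `-1`), `r0 a` is the action of
the even element `a` and `r1 x` the action of the odd element `x`. -/
structure SMod (L : LieSuper k g0 g1) (M : Type u) [AddCommGroup M] [Module k M] where
  /-- the parity involution -/
  σ : Module.End k M
  /-- the action of the even part -/
  r0 : g0 →ₗ[k] Module.End k M
  /-- the action of the odd part -/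
  r1 : g1 →ₗ[k] Module.End k M
  σσ : σ * σ = 1
  σ0 : ∀ a, σ * r0 a = r0 a * σ
  σ1 : ∀ x, σ * r1 x = -(r1 x * σ)
  h00 : ∀ a b, r0 (L.b00 a b) = r0 a * r0 b - r0 b * r0 a
  h01 : ∀ a x, r1 (L.b01 a x) = r0 a * r1 x - r1 x * r0 a
  h11 : ∀ x y, r0 (L.b11 x y) = r1 x * r1 y + r1 y * r1 x

/-- The rank variety of the supermodule `ρ`: all odd `x` with `[x,x] = 0` such that `x = 0` or `M`
is not free over the exterior algebra `Λ(x) = k[x]/(x^2)`, that is, `ker x ≠ im x` on `M`. -/
def rankVar {L : LieSuper k g0 g1} {M : Type u} [AddCommGroup M] [Module k M] (ρ : SMod L M) :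
    Set g1 :=
  {x | L.b11 x x = 0 ∧ (x = 0 ∨ LinearMap.ker (ρ.r1 x) ≠ LinearMap.range (ρ.r1 x))}

/-- `W` is a (nonempty) closed conical subset of the odd nullcone `N_1 = {x ∈ g_1 : [x,x] = 0}`:
it is cut out in `N_1` by polynomial functions, contains `0` and is stable under scalars. -/
def IsClosedConical (L : LieSuper k g0 g1) (W : Set g1) : Prop :=
  (∃ (m : ℕ) (y : Module.Basis (Fin m) k g1) (S : Set (MvPolynomial (Fin m) k)),
    W = {x | L.b11 x x = 0 ∧ ∀ P ∈ S, MvPolynomial.eval (fun i => y.repr x i) P = 0}) ∧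
  (0 : g1) ∈ W ∧ ∀ (c : k), ∀ x ∈ W, c • x ∈ W

/-- left exterior multiplication by the `i`-th basis vector on `Λ(k^m) ⊗ N`, where an element of
`Λ(k^m) ⊗ N` is a function on the finite subsets of `Fin m` (`Pi.single S n` is `y_S ⊗ n`) -/
def eop (k : Type u) [Field k] (m : ℕ) (N : Type u) [AddCommGroup N] [Module k N] (i : Fin m) :
    (Finset (Fin m) → N) →ₗ[k] (Finset (Fin m) → N) where
  toFun v T := if i ∈ T then ((-1 : k) ^ (T.filter (fun j => j < i)).card) • v (T.erase i) else 0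
  map_add' v w := by
    funext T
    by_cases h : i ∈ T <;> simp [h]
  map_smul' c v := by
    funext T
    by_cases h : i ∈ T <;> simp [h, smul_comm c]

/-- elements of degree at most `d` -/
def filt (k : Type u) [Field k] (m : ℕ) (N : Type u) [AddCommGroup N] [Module k N] (d : ℕ) :
    Submodule k (Finset (Fin m) → N) where
  carrier := {v | ∀ T, d < T.card → v T = 0}
  add_mem' := by
    intro v w hv hw T hT
    simp [hv T hT, hw T hT]
  zero_mem' := by
    intro T _
    rfl
  smul_mem' := by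
    intro c v hv T hT
    simp [hv T hT]

end

/-- `ρ` is (a model of) the induced module `U(g) ⊗_{U(g_0)} N` on the space `Λ(g_1) ⊗ N`; here `n0` is
the action of `g_0` on `N` and `Pi.single S n` stands for `y_S ⊗ n`. -/
def IsInd {k g0 g1 N : Type u} [Field k] [AddCommGroup g0] [Module k g0]
    [AddCommGroup g1] [Module k g1] [AddCommGroup N] [Module k N]
    (L : LieSuper k g0 g1) (m : ℕ) (y : Module.Basis (Fin m) k g1)
    (n0 : g0 →ₗ[k] Module.End k N) (ρ : SMod L (Finset (Fin m) → N)) : Prop :=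
  (∀ v T, ρ.σ v T = ((-1 : k) ^ T.card) • v T) ∧
  (∀ a n, ρ.r0 a (Pi.single ∅ n) = Pi.single ∅ (n0 a n)) ∧
  (∀ (i : Fin m) (S : Finset (Fin m)) (n : N), (∀ j ∈ S, i < j) →
    ρ.r1 (y i) (Pi.single S n) = Pi.single (insert i S) n) ∧
  (∀ (i : Fin m) (d : ℕ), ∀ v ∈ filt k m N d, ρ.r1 (y i) v - eop k m N i v ∈ filt k m N d) ∧
  (∀ (a : g0) (d : ℕ), ∀ v ∈ filt k m N d, ρ.r0 a v ∈ filt k m N d)

/-- Relative Poincaré–Birkhoff–Witt theorem: the induced module `U(g) ⊗_{U(g_0)} N` has underlying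
space `Λ(g_1) ⊗ N`. -/
def S_PBW : Prop :=
  ∀ (k g0 g1 N : Type u) [Field k] [AddCommGroup g0] [Module k g0]
    [AddCommGroup g1] [Module k g1] [AddCommGroup N] [Module k N] (_ : (2 : k) ≠ 0)
    (L : LieSuper k g0 g1) (m : ℕ) (y : Module.Basis (Fin m) k g1)
    (n0 : g0 →ₗ[k] Module.End k N)
    (_ : ∀ a b, n0 (L.b00 a b) = n0 a * n0 b - n0 b * n0 a),
    ∃ ρ : SMod L (Finset (Fin m) → N), IsInd L m y n0 ρ

/-- Induced modules are acyclic for every `0 ≠ x ∈ N_1`. -/
def S_ACY : Prop :=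
  ∀ (k g0 g1 N : Type u) [Field k] [AddCommGroup g0] [Module k g0]
    [AddCommGroup g1] [Module k g1] [AddCommGroup N] [Module k N] (_ : (2 : k) ≠ 0)
    (L : LieSuper k g0 g1) (m : ℕ) (y : Module.Basis (Fin m) k g1)
    (n0 : g0 →ₗ[k] Module.End k N) (ρ : SMod L (Finset (Fin m) → N)), IsInd L m y n0 ρ →
    ∀ x : g1, L.b11 x x = 0 → x ≠ 0 → LinearMap.ker (ρ.r1 x) = LinearMap.range (ρ.r1 x)

/-- Universal property of the induced module (existence and uniqueness).  The target `M` need not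
be graded. -/
def S_UNI : Prop :=
  ∀ (k g0 g1 N : Type u) [Field k] [AddCommGroup g0] [Module k g0]
    [AddCommGroup g1] [Module k g1] [AddCommGroup N] [Module k N] (_ : (2 : k) ≠ 0)
    (L : LieSuper k g0 g1) (m : ℕ) (y : Module.Basis (Fin m) k g1)
    (n0 : g0 →ₗ[k] Module.End k N) (ρ : SMod L (Finset (Fin m) → N)), IsInd L m y n0 ρ →
    ∀ (M : Type u) [AddCommGroup M] [Module k M]
      (s0 : g0 →ₗ[k] Module.End k M) (s1 : g1 →ₗ[k] Module.End k M)
      (_ : ∀ a b, s0 (L.b00 a b) = s0 a * s0 b - s0 b * s0 a)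
      (_ : ∀ a x, s1 (L.b01 a x) = s0 a * s1 x - s1 x * s0 a)
      (_ : ∀ x y, s0 (L.b11 x y) = s1 x * s1 y + s1 y * s1 x)
      (φ : N →ₗ[k] M) (_ : ∀ a n, φ (n0 a n) = s0 a (φ n)),
      ∃! Φ : (Finset (Fin m) → N) →ₗ[k] M, (∀ n, Φ (Pi.single ∅ n) = φ n) ∧
        (∀ a v, Φ (ρ.r0 a v) = s0 a (Φ v)) ∧ (∀ x v, Φ (ρ.r1 x v) = s1 x (Φ v))

/-- Hypersurfaces: for a homogeneous polynomial `f` of positive degree there is a finite-dimensional
supermodule which is acyclic for `0 ≠ x ∈ N_1` iff `f x ≠ 0`. -/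
def S_HYP : Prop :=
  ∀ (k g0 g1 : Type u) [Field k] [Infinite k] [AddCommGroup g0] [Module k g0]
    [AddCommGroup g1] [Module k g1] (p : ℕ) [Fact p.Prime] [CharP k p] (_ : 3 ≤ p)
    (L : LieSuper k g0 g1) (m : ℕ) (y : Module.Basis (Fin m) k g1)
    (e : ℕ) (_ : 1 ≤ e) (f : MvPolynomial (Fin m) k) (_ : f.IsHomogeneous e),
    ∃ (M : Type u) (_ : AddCommGroup M) (_ : Module k M) (_ : Module.Finite k M) (ρ : SMod L M),
      ∀ x : g1, L.b11 x x = 0 → x ≠ 0 →
        (LinearMap.ker (ρ.r1 x) = LinearMap.range (ρ.r1 x) ↔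
          MvPolynomial.eval (fun i => y.repr x i) f ≠ 0)

/-- The final statement (full answer of Q1). -/
def S_FIN : Prop :=
  ∀ (k g0 g1 : Type u) [Field k] [IsAlgClosed k] [AddCommGroup g0] [Module k g0]
    [Module.Finite k g0] [AddCommGroup g1] [Module k g1] [Module.Finite k g1]
    (p : ℕ) [Fact p.Prime] [CharP k p] (_ : 3 ≤ p)
    (L : LieSuper k g0 g1) (W : Set g1), IsClosedConical L W →
    ∃ (M : Type u) (_ : AddCommGroup M) (_ : Module k M) (_ : Module.Finite k M) (ρ : SMod L M),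
      rankVar ρ = W

end Pool.Agent.U450.SV
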