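import Pool.Agent.U450.SV.Stm

/-! Free modules over `Λ(x) = k[x]/(x^2)`. -/

set_option autoImplicit false

universe u

namespace Pool.Agent.U450.SV

/-- `M` is a free module over the exterior algebra `Λ(T) = k[T]/(T^2)` on one generator, where the
generator acts by `T`: there are vectors `b_i` such that the `b_i` together with the `T b_i` form a
basis of `M` over `k`, and `T (T b_i) = 0`. -/
def IsFreeOver {k M : Type u} [Field k] [AddCommGroup M] [Module k M] (T : Module.End k M) :
    Prop :=
  ∃ (ι : Type u) (b : Module.Basis (ι ⊕ ι) k M),
    ∀ i, T (b (Sum.inl i)) = b (Sum.inr i) ∧ T (b (Sum.inr i)) = 0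

theorem isFreeOver_iff {k M : Type u} [Field k] [AddCommGroup M] [Module k M]
    (T : Module.End k M) (hT : T * T = 0) :
    IsFreeOver T ↔ LinearMap.ker T = LinearMap.range T := by
  have hT' : ∀ v, T (T v) = 0 := fun v => by
    rw [← Module.End.mul_apply, hT]; rfl
  constructor
  · rintro ⟨ι, b, hb⟩
    apply le_antisymm
    · intro v hv
      rw [LinearMap.mem_ker] at hv
      -- expand in the basis
      have e1 : v = (b.repr v).sum fun j c => c • b j := by
        conv_lhs => rw [← b.linearCombination_repr v, Finsupp.linearCombination_apply]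
      -- coefficients at `inl` vanish
      have h0 : ∀ i, b.repr v (Sum.inl i) = 0 := by
        intro i
        -- the linear functional `repr (T ·) (inr i)` equals `repr · (inl i)`
        have hlin : (Finsupp.lapply (Sum.inr i)) ∘ₗ b.repr.toLinearMap ∘ₗ T =
            ((Finsupp.lapply (Sum.inl i)) ∘ₗ b.repr.toLinearMap : M →ₗ[k] k) := by
          apply b.ext
          rintro (j | j)
          · simp only [LinearMap.comp_apply, LinearEquiv.coe_coe, Finsupp.lapply_apply,
              (hb j).1, Module.Basis.repr_self]
            by_cases hij : j = i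
            · subst hij; simp
            · rw [Finsupp.single_eq_of_ne, Finsupp.single_eq_of_ne]
              · exact fun h => hij (Sum.inl_injective h).symm
              · exact fun h => hij (Sum.inr_injective h).symm
          · simp only [LinearMap.comp_apply, LinearEquiv.coe_coe, Finsupp.lapply_apply,
              (hb j).2, Module.Basis.repr_self, map_zero, Finsupp.coe_zero, Pi.zero_apply]
            rw [Finsupp.single_eq_of_ne]
            exact fun h => by simp at h
        have := congrArg (fun f => f v) hlin
        simp only [LinearMap.comp_apply, hv, map_zero] at this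
        exact this.symm
      rw [e1, Finsupp.sum]
      refine Submodule.sum_mem _ ?_
      rintro (j | j) hj
      · simp [h0 j]
      · refine Submodule.smul_mem _ _ ⟨b (Sum.inl j), (hb j).1⟩
    · rintro _ ⟨v, rfl⟩
      exact hT' v
  · intro h
    obtain ⟨C, hC⟩ := Submodule.exists_isCompl (LinearMap.ker T)
    let bC := Module.Basis.ofVectorSpace k C
    have hinj : ∀ c : C, T c = 0 → c = 0 := by
      intro c hc
      have : (c : M) ∈ LinearMap.ker T ⊓ C := ⟨hc, c.2⟩
      rw [hC.inf_eq_bot] at this
      exact Subtype.ext this
    -- the isomorphism `C × C ≃ M`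
    let φ : (C × C) →ₗ[k] M := LinearMap.coprod C.subtype (T ∘ₗ C.subtype)
    have hφ : ∀ z, φ z = (z.1 : M) + T (z.2 : M) := fun z => by
      simp [φ, LinearMap.coprod_apply]
    have hφb : Function.Bijective φ := by
      constructor
      · rw [← LinearMap.ker_eq_bot, LinearMap.ker_eq_bot']
        rintro ⟨a, c⟩ hz
        rw [hφ] at hz
        have h1 : T (a : M) = 0 := by
          have := congrArg T hz
          rw [map_add, hT', add_zero, map_zero] at this
          exact this
        have ha := hinj a h1
        subst ha
        simp only [ZeroMemClass.coe_zero, zero_add] at hz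
        have hc := hinj c hz
        subst hc
        rfl
      · intro v
        have hv : v ∈ LinearMap.ker T ⊔ C := by rw [hC.sup_eq_top]; trivial
        obtain ⟨w, hw, c, hc, rfl⟩ := Submodule.mem_sup.1 hv
        rw [h] at hw
        obtain ⟨u, rfl⟩ := hw
        have hu : u ∈ LinearMap.ker T ⊔ C := by rw [hC.sup_eq_top]; trivial
        obtain ⟨w', hw', c', hc', rfl⟩ := Submodule.mem_sup.1 hu
        refine ⟨(⟨c, hc⟩, ⟨c', hc'⟩), ?_⟩
        rw [hφ, map_add, LinearMap.mem_ker.1 hw', zero_add, add_comm]
    let e : (C × C) ≃ₗ[k] M := LinearEquiv.ofBijective φ hφb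
    refine ⟨_, (bC.prod bC).map e, ?_⟩
    intro i
    have e1 : ((bC.prod bC).map e) (Sum.inl i) = (bC i : M) := by
      rw [Module.Basis.map_apply, Module.Basis.prod_apply]
      show φ _ = _
      rw [hφ]
      simp
    have e2 : ((bC.prod bC).map e) (Sum.inr i) = T (bC i : M) := by
      rw [Module.Basis.map_apply, Module.Basis.prod_apply]
      show φ _ = _
      rw [hφ]
      simp
    rw [e1, e2]
    exact ⟨rfl, hT' _⟩

end Pool.Agent.U450.SV
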