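import Pool.Agent.U450.SV.PBW3

/-! Relative Poincaré–Birkhoff–Witt theorem. -/

set_option autoImplicit false
set_option linter.unusedSectionVars false

universe u

namespace Pool.Agent.U450.SV

variable {k g0 g1 N : Type u} [Field k] [AddCommGroup g0] [Module k g0]
  [AddCommGroup g1] [Module k g1] [AddCommGroup N] [Module k N]

/-- the parity involution -/
noncomputable def sig (k : Type u) [Field k] (m : ℕ) (N : Type u) [AddCommGroup N] [Module k N] :
    Module.End k (Finset (Fin m) → N) where
  toFun v T := ((-1 : k) ^ T.card) • v T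
  map_add' v w := by funext T; simp
  map_smul' c v := by funext T; simp [smul_comm c]

theorem sig_apply {m : ℕ} (v : Finset (Fin m) → N) (T : Finset (Fin m)) :
    sig k m N v T = ((-1 : k) ^ T.card) • v T := rfl

theorem sig_sg {m : ℕ} (S : Finset (Fin m)) (n : N) :
    sig k m N (sg S n) = ((-1 : k) ^ S.card) • sg S n := by
  funext T
  rw [sig_apply, Pi.smul_apply]
  by_cases h : T = S
  · subst h; rfl
  · rw [sg, Pi.single_eq_of_ne h]; simp

theorem sig_sig {m : ℕ} : sig k m N * sig k m N = 1 := by
  apply LinearMap.ext
  intro v
  funext T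
  rw [Module.End.mul_apply, sig_apply, sig_apply, smul_smul, ← mul_pow]
  simp

theorem sig_eop {m : ℕ} (i : Fin m) (v : Finset (Fin m) → N) :
    sig k m N (eop k m N i v) = - eop k m N i (sig k m N v) := by
  funext T
  rw [sig_apply, Pi.neg_apply, eop_apply, eop_apply]
  by_cases h : i ∈ T
  · rw [if_pos h, if_pos h, sig_apply]
    have : T.card = (T.erase i).card + 1 := (Finset.card_erase_add_one h).symm
    rw [this, pow_succ]
    module
  · rw [if_neg h, if_neg h]; simp

variable {L : LieSuper k g0 g1} {m : ℕ} {y : Module.Basis (Fin m) k g1}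
  {n0 : g0 →ₗ[k] Module.End k N}
  {A : g0 →ₗ[k] Module.End k (Finset (Fin m) → N)}
  {B : g1 →ₗ[k] Module.End k (Finset (Fin m) → N)}

/-- vectors on which the parity relations hold -/
def Par (A : g0 →ₗ[k] Module.End k (Finset (Fin m) → N))
    (B : g1 →ₗ[k] Module.End k (Finset (Fin m) → N)) : Submodule k (Finset (Fin m) → N) where
  carrier := {v | (∀ a, sig k m N (A a v) = A a (sig k m N v)) ∧
    (∀ x, sig k m N (B x v) = - B x (sig k m N v))}
  add_mem' := by
    rintro v w ⟨h1, h2⟩ ⟨h1', h2'⟩
    refine ⟨fun a => ?_, fun x => ?_⟩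
    · simp only [map_add, h1, h1']
    · simp only [map_add, h2, h2']; abel
  zero_mem' := by simp
  smul_mem' := by
    rintro c v ⟨h1, h2⟩
    refine ⟨fun a => ?_, fun x => ?_⟩
    · simp only [map_smul, h1]
    · simp only [map_smul, h2, smul_neg]

theorem par_all (h2 : (2 : k) ≠ 0) (h : Rec L m y n0 A B) :
    ∀ d : ℕ, filt k m N d ≤ Par A B := by
  have half : ∀ u u' : Finset (Fin m) → N, (2 : k) • u = (2 : k) • u' → u = u' := by
    intro u u' huu
    have := congrArg (fun z => (2 : k)⁻¹ • z) huu
    simpa [smul_smul, inv_mul_cancel₀ h2] using this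
  have redB : ∀ v, (∀ i, sig k m N (B (y i) v) = - B (y i) (sig k m N v)) →
      ∀ x, sig k m N (B x v) = - B x (sig k m N v) := by
    intro v hv x
    refine bind y (fun x => sig k m N (B x v) = - B x (sig k m N v)) hv ?_ ?_ ?_ x
    · simp
    · intro x x' hx hx'
      simp only [map_add, LinearMap.add_apply, hx, hx']
      abel
    · intro c x hx
      simp only [map_smul, LinearMap.smul_apply, hx, smul_neg]
  have hlow : ∀ (i : Fin m) (S : Finset (Fin m)) (n : N), (∀ l ∈ S, i < l) →
      sig k m N (B (y i) (sg S n)) = - B (y i) (sig k m N (sg S n)) := by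
    intro i S n hi
    have hni : i ∉ S := fun hh => lt_irrefl _ (hi i hh)
    rw [h.b1 i S n hi, sig_sg, sig_sg, map_smul, h.b1 i S n hi, Finset.card_insert_of_notMem hni,
      pow_succ]
    module
  have hemp : ∀ n : N, sg ∅ n ∈ Par A B := by
    intro n
    constructor
    · intro a
      rw [h.a0, sig_sg, sig_sg, map_smul, h.a0]
    · apply redB
      intro i
      exact hlow i ∅ n (by simp)
  intro d
  induction d with
  | zero =>
    refine filt_le _ ?_
    intro S hS n
    have : S = ∅ := Finset.card_eq_zero.1 (Nat.le_zero.1 hS)
    rw [this]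
    exact hemp n
  | succ d ih =>
    refine filt_le _ ?_
    intro S hS n
    rcases ins_cases S with rfl | ⟨j, P, rfl, hj, hc⟩
    · exact hemp n
    · have hP : P.card ≤ d := by omega
      have hm : sg P n ∈ filt k m N d := single_mem_filt hP n
      have hs : sig k m N (sg (insert j P) n) = -(((-1 : k) ^ P.card) • sg (insert j P) n) := by
        rw [sig_sg, ← hc, pow_succ]
        module
      have hs' : sig k m N (sg P n) = ((-1 : k) ^ P.card) • sg P n := sig_sg P n
      obtain ⟨i1, i2⟩ := ih hm
      constructor
      · intro a
        have e1 := (ih (h.dA a d _ hm)).2 (y j)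
        have e2 := i2 (L.b01 a (y j))
        have e3 := i1 a
        rw [hs'] at e2 e3
        rw [e3] at e1
        rw [hs, map_neg, map_smul, h.a1 a j P n hj, map_add, e1, e2]
        simp only [map_smul]
        module
      · apply redB
        intro i
        rcases lt_trichotomy i j with hij | rfl | hij
        · apply hlow
          intro l hl
          rw [Finset.mem_insert] at hl
          rcases hl with rfl | hl
          · exact hij
          · exact hij.trans (hj l hl)
        · apply half
          have e := i1 (L.b11 (y i) (y i))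
          rw [hs'] at e
          rw [hs, ← map_smul, h.b2 i P n hj, e]
          simp only [map_neg, map_smul]
          have e' := h.b2 i P n hj
          linear_combination (norm := module) (-(-1 : k) ^ P.card) • e'
        · have e1 := (ih (h.dB i d _ hm)).2 (y j)
          have e2 := i2 (y i)
          have e3 := i1 (L.b11 (y i) (y j))
          have e4 := sig_eop (k := k) i (sg P n)
          have e5 := sig_eop (k := k) i (sg (insert j P) n)
          rw [hs'] at e2 e3 e4
          rw [hs] at e5
          have e1' := map_sub (sig k m N) (B (y i) (sg P n)) (eop k m N i (sg P n))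
          rw [e2, e4] at e1'
          rw [e1'] at e1
          have e6 := h.b3 i j P n hj hij
          have e7 : sig k m N (B (y i) (sg (insert j P) n)) =
              sig k m N (eop k m N i (sg (insert j P) n)) -
              sig k m N (B (y j) (B (y i) (sg P n) - eop k m N i (sg P n))) +
              sig k m N (A (L.b11 (y i) (y j)) (sg P n)) := by
            rw [e6, map_add, map_sub]
          rw [hs, e7, e1, e3, e5]
          simp only [map_neg, map_smul, map_sub]
          rw [e6]
          simp only [map_sub]
          module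

theorem t_PBW : S_PBW.{u} := by
  intro k g0 g1 N _ _ _ _ _ _ _ h2 L m y n0 hn0
  obtain ⟨A, B, h⟩ := exists_rec L y n0 h2
  have hg : ∀ v, v ∈ Good L A B := fun v => good_all h2 h hn0 m (mem_filt_top v)
  have hp : ∀ v, v ∈ Par A B := fun v => par_all h2 h m (mem_filt_top v)
  refine ⟨{ σ := sig k m N, r0 := A, r1 := B, σσ := sig_sig, σ0 := ?_, σ1 := ?_, h00 := ?_,
            h01 := ?_, h11 := ?_ }, ?_, ?_, ?_, ?_, ?_⟩
  · intro a
    apply LinearMap.ext
    intro v
    exact (hp v).1 a
  · intro x
    apply LinearMap.ext
    intro v
    exact (hp v).2 x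
  · intro a b
    apply LinearMap.ext
    intro v
    exact ((hg v).2.2 a b).symm
  · intro a x
    apply LinearMap.ext
    intro v
    exact ((hg v).2.1 a x).symm
  · intro x x'
    apply LinearMap.ext
    intro v
    exact ((hg v).1 x x').symm
  · intro v T
    rfl
  · exact h.a0
  · intro i S n hi
    exact h.b1 i S n hi
  · exact h.dB
  · exact h.dA

end Pool.Agent.U450.SV
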