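import Pool.Agent.U450.SV.Stm

/-! Relative Poincaré–Birkhoff–Witt theorem, part 1: exterior algebra, filtration and the abstract
induction. -/

set_option autoImplicit false
set_option linter.unusedSectionVars false

universe u

namespace Pool.Agent.U450.SV

section ext
variable {k : Type u} [Field k] {m : ℕ} {N : Type u} [AddCommGroup N] [Module k N]

/-- `y_S ⊗ n` -/
abbrev sg (S : Finset (Fin m)) (n : N) : Finset (Fin m) → N := Pi.single S n

theorem eop_apply (i : Fin m) (v : Finset (Fin m) → N) (T : Finset (Fin m)) :
    eop k m N i v T =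
      if i ∈ T then ((-1 : k) ^ (T.filter (fun j => j < i)).card) • v (T.erase i) else 0 := rfl

theorem eop_single (i : Fin m) (S : Finset (Fin m)) (n : N) :
    eop k m N i (sg S n) =
      if i ∈ S then 0 else ((-1 : k) ^ (S.filter (fun j => j < i)).card) • sg (insert i S) n := by
  funext T
  rw [eop_apply]
  by_cases hS : i ∈ S
  · rw [if_pos hS]
    by_cases hT : i ∈ T
    · rw [if_pos hT]
      have : T.erase i ≠ S := by
        intro h
        rw [← h] at hS
        exact (Finset.notMem_erase i T) hS
      simp [sg, Pi.single_eq_of_ne this]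
    · rw [if_neg hT]; rfl
  · rw [if_neg hS]
    by_cases hT : i ∈ T
    · rw [if_pos hT]
      by_cases h : T.erase i = S
      · have hT' : T = insert i S := by rw [← h, Finset.insert_erase hT]
        subst hT'
        rw [Pi.smul_apply, sg, sg, Finset.erase_insert hS, Pi.single_eq_same, Pi.single_eq_same]
        congr 3
        ext j
        simp only [Finset.mem_filter, Finset.mem_insert]
        constructor
        · rintro ⟨rfl | h1, h2⟩
          · exact absurd h2 (lt_irrefl _)
          · exact ⟨h1, h2⟩
        · rintro ⟨h1, h2⟩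
          exact ⟨Or.inr h1, h2⟩
      · have h' : T ≠ insert i S := by
          intro h2
          apply h
          rw [h2, Finset.erase_insert hS]
        rw [Pi.smul_apply, sg, sg, Pi.single_eq_of_ne h, Pi.single_eq_of_ne h']
        simp
    · rw [if_neg hT]
      have h' : T ≠ insert i S := by
        intro h2
        apply hT
        rw [h2]; exact Finset.mem_insert_self _ _
      rw [Pi.smul_apply, sg, Pi.single_eq_of_ne h', smul_zero]

theorem eop_lt {i : Fin m} {S : Finset (Fin m)} (h : ∀ j ∈ S, i < j) (n : N) :
    eop k m N i (sg S n) = sg (insert i S) n := by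
  rw [eop_single]
  have hi : i ∉ S := fun hi => lt_irrefl _ (h i hi)
  rw [if_neg hi]
  have : S.filter (fun j => j < i) = ∅ := by
    rw [Finset.filter_eq_empty_iff]
    intro j hj
    exact not_lt.2 (h j hj).le
  rw [this]; simp

theorem eop_anti (i j : Fin m) (v : Finset (Fin m) → N) :
    eop k m N i (eop k m N j v) + eop k m N j (eop k m N i v) = 0 := by
  have key : ∀ i j : Fin m, i < j → ∀ T : Finset (Fin m),
      eop k m N i (eop k m N j v) T + eop k m N j (eop k m N i v) T = 0 := by
    intro i j hij T
    rw [eop_apply, eop_apply (k := k) j _ T, eop_apply (k := k) j _ (T.erase i),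
      eop_apply (k := k) i _ (T.erase j)]
    by_cases hi : i ∈ T
    · by_cases hj : j ∈ T
      · have hj' : j ∈ T.erase i := Finset.mem_erase.2 ⟨hij.ne', hj⟩
        have hi' : i ∈ T.erase j := Finset.mem_erase.2 ⟨hij.ne, hi⟩
        rw [if_pos hi, if_pos hj, if_pos hj', if_pos hi']
        have e1 : ((T.erase j).filter (fun l => l < i)) = T.filter (fun l => l < i) := by
          ext l
          simp only [Finset.mem_filter, Finset.mem_erase]
          constructor
          · rintro ⟨⟨_, h1⟩, h2⟩; exact ⟨h1, h2⟩
          · rintro ⟨h1, h2⟩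
            exact ⟨⟨(h2.trans hij).ne, h1⟩, h2⟩
        have e2 : (T.filter (fun l => l < j)).card =
            ((T.erase i).filter (fun l => l < j)).card + 1 := by
          have : (T.erase i).filter (fun l => l < j) = (T.filter (fun l => l < j)).erase i := by
            ext l
            simp only [Finset.mem_filter, Finset.mem_erase]
            tauto
          rw [this, Finset.card_erase_of_mem (Finset.mem_filter.2 ⟨hi, hij⟩)]
          have : 0 < (T.filter (fun l => l < j)).card :=
            Finset.card_pos.2 ⟨i, Finset.mem_filter.2 ⟨hi, hij⟩⟩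
          omega
        rw [e1, e2, Finset.erase_right_comm, pow_succ]
        module
      · have hj' : j ∉ T.erase i := fun h => hj (Finset.mem_of_mem_erase h)
        rw [if_neg hj', if_neg hj]
        simp
    · have hi' : i ∉ T.erase j := fun h => hi (Finset.mem_of_mem_erase h)
      rw [if_neg hi, if_neg hi']
      simp
  rcases lt_trichotomy i j with h | rfl | h
  · funext T; exact key i j h T
  · have : eop k m N i (eop k m N i v) = 0 := by
      funext T
      rw [eop_apply, eop_apply]
      simp
    rw [this, add_zero]
  · funext T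
    rw [Pi.add_apply, add_comm]
    exact key j i h T

theorem mem_filt {d : ℕ} {v : Finset (Fin m) → N} :
    v ∈ filt k m N d ↔ ∀ T, d < T.card → v T = 0 := Iff.rfl

theorem filt_mono {d d' : ℕ} (h : d ≤ d') {v : Finset (Fin m) → N} (hv : v ∈ filt k m N d) :
    v ∈ filt k m N d' := fun T hT => hv T (h.trans_lt hT)

theorem single_mem_filt {d : ℕ} {S : Finset (Fin m)} (h : S.card ≤ d) (n : N) :
    sg S n ∈ filt k m N d := by
  intro T hT
  apply Pi.single_eq_of_ne
  rintro rfl
  omega

theorem mem_filt_top (v : Finset (Fin m) → N) : v ∈ filt k m N m := by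
  intro T hT
  have := T.card_le_univ
  rw [Fintype.card_fin] at this
  omega

theorem eop_mem_filt (i : Fin m) {d : ℕ} {v : Finset (Fin m) → N} (hv : v ∈ filt k m N d) :
    eop k m N i v ∈ filt k m N (d + 1) := by
  intro T hT
  rw [eop_apply]
  by_cases h : i ∈ T
  · rw [if_pos h, hv, smul_zero]
    rw [Finset.card_erase_of_mem h]
    omega
  · rw [if_neg h]

/-- a submodule which contains all `y_S ⊗ n` with `|S| ≤ d` contains `filt d` -/
theorem filt_le {d : ℕ} (K : Submodule k (Finset (Fin m) → N))
    (h : ∀ S : Finset (Fin m), S.card ≤ d → ∀ n, sg S n ∈ K) : filt k m N d ≤ K := by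
  intro v hv
  rw [← Finset.univ_sum_single v]
  refine Submodule.sum_mem _ fun S _ => ?_
  by_cases hS : S.card ≤ d
  · exact h S hS _
  · rw [hv S (by omega), Pi.single_zero]
    exact K.zero_mem

end ext

section alg
variable {k g0 g1 N : Type u} [Field k] [AddCommGroup g0] [Module k g0]
  [AddCommGroup g1] [Module k g1] [AddCommGroup N] [Module k N]
  {L : LieSuper k g0 g1} {m : ℕ} {y : Module.Basis (Fin m) k g1}

theorem bind (y : Module.Basis (Fin m) k g1) (C : g1 → Prop) (hb : ∀ i, C (y i)) (h0 : C 0)
    (ha : ∀ x y, C x → C y → C (x + y)) (hs : ∀ (c : k) x, C x → C (c • x)) (x : g1) : C x := by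
  have hx : x ∈ Submodule.span k (Set.range y) := by rw [y.span_eq]; trivial
  induction hx using Submodule.span_induction with
  | mem x h => obtain ⟨i, rfl⟩ := h; exact hb i
  | zero => exact h0
  | add x y _ _ hx hy => exact ha x y hx hy
  | smul c x _ hx => exact hs c x hx

/-- polarised Jacobi identity -/
theorem jac_pol (L : LieSuper k g0 g1) (x z w : g1) :
    L.b01 (L.b11 x z) w + L.b01 (L.b11 z w) x + L.b01 (L.b11 x w) z = 0 ∨ (2 : k) = 0 := by
  by_cases h2 : (2 : k) = 0
  · exact Or.inr h2
  left
  have e : ∀ x, L.b01 (L.b11 x x) x = 0 := L.jac111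
  have h1 := e (x + z + w)
  have h3 := e (x + z)
  have h4 := e (x + w)
  have h5 := e (z + w)
  have hx := e x
  have hz := e z
  have hw := e w
  simp only [map_add, LinearMap.add_apply] at h1 h3 h4 h5
  rw [L.symm z x] at h1 h3
  rw [L.symm w x] at h1 h4
  rw [L.symm w z] at h1 h5
  have : (2 : k) • (L.b01 (L.b11 x z) w + L.b01 (L.b11 z w) x + L.b01 (L.b11 x w) z) = 0 := by
    linear_combination (norm := module) h1 - h3 - h4 - h5 + hx + hz + hw
  exact (smul_eq_zero.1 this).resolve_left h2

end alg

end Pool.Agent.U450.SV
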