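import Pool.Agent.U450.SV.PBW1

/-! Relative Poincaré–Birkhoff–Witt theorem, part 2: the abstract induction. -/

set_option autoImplicit false
set_option linter.unusedSectionVars false

universe u

namespace Pool.Agent.U450.SV

variable {k g0 g1 N : Type u} [Field k] [AddCommGroup g0] [Module k g0]
  [AddCommGroup g1] [Module k g1] [AddCommGroup N] [Module k N]

/-- the recursion satisfied by the two families of operators -/
structure Rec (L : LieSuper k g0 g1) (m : ℕ) (y : Module.Basis (Fin m) k g1)
    (n0 : g0 →ₗ[k] Module.End k N)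
    (A : g0 →ₗ[k] Module.End k (Finset (Fin m) → N))
    (B : g1 →ₗ[k] Module.End k (Finset (Fin m) → N)) : Prop where
  a0 : ∀ a n, A a (sg ∅ n) = sg ∅ (n0 a n)
  a1 : ∀ a (j : Fin m) (S : Finset (Fin m)) n, (∀ i ∈ S, j < i) →
    A a (sg (insert j S) n) = B (y j) (A a (sg S n)) + B (L.b01 a (y j)) (sg S n)
  b1 : ∀ (i : Fin m) (S : Finset (Fin m)) n, (∀ j ∈ S, i < j) →
    B (y i) (sg S n) = sg (insert i S) n
  b2 : ∀ (i : Fin m) (S : Finset (Fin m)) n, (∀ j ∈ S, i < j) →
    (2 : k) • B (y i) (sg (insert i S) n) = A (L.b11 (y i) (y i)) (sg S n)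
  b3 : ∀ (i j : Fin m) (S : Finset (Fin m)) n, (∀ l ∈ S, j < l) → j < i →
    B (y i) (sg (insert j S) n) = eop k m N i (sg (insert j S) n) -
      B (y j) (B (y i) (sg S n) - eop k m N i (sg S n)) + A (L.b11 (y i) (y j)) (sg S n)
  dA : ∀ a (d : ℕ), ∀ v ∈ filt k m N d, A a v ∈ filt k m N d
  dB : ∀ (i : Fin m) (d : ℕ), ∀ v ∈ filt k m N d, B (y i) v - eop k m N i v ∈ filt k m N d

variable {L : LieSuper k g0 g1} {m : ℕ} {y : Module.Basis (Fin m) k g1}
  {n0 : g0 →ₗ[k] Module.End k N}
  {A : g0 →ₗ[k] Module.End k (Finset (Fin m) → N)}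
  {B : g1 →ₗ[k] Module.End k (Finset (Fin m) → N)}

/-- the set of vectors on which all relations hold -/
def Good (L : LieSuper k g0 g1) (A : g0 →ₗ[k] Module.End k (Finset (Fin m) → N))
    (B : g1 →ₗ[k] Module.End k (Finset (Fin m) → N)) : Submodule k (Finset (Fin m) → N) where
  carrier := {v | (∀ x x', B x (B x' v) + B x' (B x v) = A (L.b11 x x') v) ∧
    (∀ a x, A a (B x v) - B x (A a v) = B (L.b01 a x) v) ∧
    (∀ a b, A a (A b v) - A b (A a v) = A (L.b00 a b) v)}
  add_mem' := by
    rintro v w ⟨h1, h2, h3⟩ ⟨h1', h2', h3'⟩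
    refine ⟨fun x x' => ?_, fun a x => ?_, fun a b => ?_⟩
    · simp only [map_add]
      rw [← h1, ← h1']; abel
    · simp only [map_add]
      rw [← h2, ← h2']; abel
    · simp only [map_add]
      rw [← h3, ← h3']; abel
  zero_mem' := by simp
  smul_mem' := by
    rintro c v ⟨h1, h2, h3⟩
    refine ⟨fun x x' => ?_, fun a x => ?_, fun a b => ?_⟩
    · simp only [map_smul]
      rw [← h1, smul_add]
    · simp only [map_smul]
      rw [← h2, smul_sub]
    · simp only [map_smul]
      rw [← h3, smul_sub]

theorem c1 (h : Rec L m y n0 A B) {i : Fin m} {S : Finset (Fin m)} (hi : ∀ j ∈ S, i < j)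
    (x : g1) (n : N) :
    B x (B (y i) (sg S n)) + B (y i) (B x (sg S n)) = A (L.b11 x (y i)) (sg S n) := by
  have key : ∀ i j : Fin m, i < j → (∀ l ∈ S, i < l) →
      B (y j) (B (y i) (sg S n)) + B (y i) (B (y j) (sg S n)) =
        A (L.b11 (y j) (y i)) (sg S n) := by
    intro i j hij hi
    rw [h.b1 i S n hi, h.b3 j i S n hi hij]
    have e1 : B (y i) (eop k m N j (sg S n)) = eop k m N i (eop k m N j (sg S n)) := by
      rw [eop_single]
      by_cases hj : j ∈ S
      · rw [if_pos hj]; simp
      · rw [if_neg hj, map_smul, map_smul]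
        have hh : ∀ l ∈ insert j S, i < l := by
          intro l hl
          rw [Finset.mem_insert] at hl
          rcases hl with rfl | hl
          · exact hij
          · exact hi l hl
        rw [h.b1 i _ n hh, eop_lt hh]
    rw [map_sub, e1, ← eop_lt (k := k) hi n]
    have e2 := eop_anti (k := k) i j (sg S n)
    linear_combination (norm := module) e2
  refine bind y (fun x => B x (B (y i) (sg S n)) + B (y i) (B x (sg S n)) =
    A (L.b11 x (y i)) (sg S n)) ?_ ?_ ?_ ?_ x
  · intro j
    rcases lt_trichotomy i j with hij | rfl | hij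
    · exact key i j hij hi
    · rw [h.b1 i S n hi, ← h.b2 i S n hi, two_smul]
    · have := key j i hij (fun l hl => hij.trans (hi l hl))
      rw [L.symm (y j) (y i), ← this, add_comm]
  · simp
  · intro x x' hx hx'
    simp only [map_add, LinearMap.add_apply]
    rw [← hx, ← hx']; abel
  · intro c x hx
    simp only [map_smul, LinearMap.smul_apply]
    rw [← hx, smul_add]

theorem c2 (h : Rec L m y n0 A B) {i : Fin m} {S : Finset (Fin m)} (hi : ∀ j ∈ S, i < j)
    (a : g0) (n : N) :
    A a (B (y i) (sg S n)) - B (y i) (A a (sg S n)) = B (L.b01 a (y i)) (sg S n) := by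
  rw [h.b1 i S n hi, h.a1 a i S n hi]
  abel

theorem up (h : Rec L m y n0 A B) {d : ℕ} {i j : Fin m} {P : Finset (Fin m)} (hP : P.card ≤ d)
    (hi : ∀ l ∈ P, i < l) (hij : i < j) (n : N) (K : Submodule k (Finset (Fin m) → N))
    (hK1 : ∀ (S : Finset (Fin m)), (∀ l ∈ S, i < l) → sg S n ∈ K) (hK2 : filt k m N d ≤ K) :
    B (y j) (sg P n) ∈ K := by
  have e : B (y j) (sg P n) = eop k m N j (sg P n) +
      (B (y j) (sg P n) - eop k m N j (sg P n)) := by abel
  rw [e]
  refine K.add_mem ?_ (hK2 (h.dB j d _ (single_mem_filt hP n)))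
  rw [eop_single]
  by_cases hj : j ∈ P
  · rw [if_pos hj]; exact K.zero_mem
  · rw [if_neg hj]
    refine K.smul_mem _ (hK1 _ ?_)
    intro l hl
    rw [Finset.mem_insert] at hl
    rcases hl with rfl | hl
    · exact hij
    · exact hi l hl

/-- vectors on which the relation `(x, y_i)` holds for all odd `x` -/
def K1 (L : LieSuper k g0 g1) (A : g0 →ₗ[k] Module.End k (Finset (Fin m) → N))
    (B : g1 →ₗ[k] Module.End k (Finset (Fin m) → N)) (z : g1) :
    Submodule k (Finset (Fin m) → N) where
  carrier := {v | (∀ x, B x (B z v) + B z (B x v) = A (L.b11 x z) v) ∧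
    (∀ a, A a (B z v) - B z (A a v) = B (L.b01 a z) v)}
  add_mem' := by
    rintro v w ⟨h1, h2⟩ ⟨h1', h2'⟩
    refine ⟨fun x => ?_, fun a => ?_⟩
    · simp only [map_add]
      rw [← h1, ← h1']; abel
    · simp only [map_add]
      rw [← h2, ← h2']; abel
  zero_mem' := by simp
  smul_mem' := by
    rintro c v ⟨h1, h2⟩
    refine ⟨fun x => ?_, fun a => ?_⟩
    · simp only [map_smul]
      rw [← h1, smul_add]
    · simp only [map_smul]
      rw [← h2, smul_sub]

theorem good_empty (h : Rec L m y n0 A B)
    (hn0 : ∀ a b, n0 (L.b00 a b) = n0 a * n0 b - n0 b * n0 a) (n : N) :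
    sg ∅ n ∈ Good L A B := by
  have hi : ∀ i : Fin m, ∀ j ∈ (∅ : Finset (Fin m)), i < j := by simp
  refine ⟨fun x x' => ?_, fun a x => ?_, fun a b => ?_⟩
  · refine bind y (fun x' => B x (B x' (sg ∅ n)) + B x' (B x (sg ∅ n)) =
      A (L.b11 x x') (sg ∅ n)) ?_ ?_ ?_ ?_ x'
    · intro i
      exact c1 h (hi i) x n
    · simp
    · intro z z' hz hz'
      simp only [map_add, LinearMap.add_apply]
      rw [← hz, ← hz']; abel
    · intro c z hz
      simp only [map_smul, LinearMap.smul_apply]
      rw [← hz, smul_add]
  · refine bind y (fun x => A a (B x (sg ∅ n)) - B x (A a (sg ∅ n)) =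
      B (L.b01 a x) (sg ∅ n)) ?_ ?_ ?_ ?_ x
    · intro i
      exact c2 h (hi i) a n
    · simp
    · intro z z' hz hz'
      simp only [map_add, LinearMap.add_apply]
      rw [← hz, ← hz']; abel
    · intro c z hz
      simp only [map_smul, LinearMap.smul_apply]
      rw [← hz, smul_sub]
  · rw [h.a0, h.a0, h.a0, h.a0, h.a0, hn0, LinearMap.sub_apply, sg, sg, ← Pi.single_sub]
    rfl

theorem good_insert (h2 : (2 : k) ≠ 0) (h : Rec L m y n0 A B) {d : ℕ}
    (hd : filt k m N d ≤ Good L A B) {q : Fin m} {P : Finset (Fin m)} (hP : P.card ≤ d)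
    (hq : ∀ l ∈ P, q < l) (n : N) : sg (insert q P) n ∈ Good L A B := by
  have hwf : sg P n ∈ filt k m N d := single_mem_filt hP n
  have hv : sg (insert q P) n = B (y q) (sg P n) := (h.b1 q P n hq).symm
  obtain ⟨w, hw⟩ : ∃ w, w = sg P n := ⟨_, rfl⟩
  have hup : ∀ j : Fin m, q < j → B (y j) w ∈ K1 L A B (y q) := by
    intro j hj
    rw [hw]
    refine up h hP hq hj n _ ?_ ?_
    · intro S hS
      exact ⟨fun x => c1 h hS x n, fun a => c2 h hS a n⟩
    · intro u hu
      have := hd hu
      exact ⟨fun x => this.1 x (y q), fun a => this.2.1 a (y q)⟩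
  have hlt : ∀ i : Fin m, i < q → ∀ l ∈ insert q P, i < l := by
    intro i hi l hl
    rw [Finset.mem_insert] at hl
    rcases hl with rfl | hl
    · exact hi
    · exact hi.trans (hq l hl)
  rw [← hw] at hv hwf
  obtain ⟨hoo, heo, hee⟩ := hd hwf
  have hAw : ∀ a, A a w ∈ Good L A B := fun a => hd (h.dA a d w hwf)
  have half : ∀ u u' : Finset (Fin m) → N, (2 : k) • u = (2 : k) • u' → u = u' := by
    intro u u' huu
    have := congrArg (fun z => (2 : k)⁻¹ • z) huu
    simpa [smul_smul, inv_mul_cancel₀ h2] using this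
  refine ⟨?_, ?_, ?_⟩
  · -- odd-odd
    have main : ∀ i j : Fin m, i ≤ j →
        B (y i) (B (y j) (sg (insert q P) n)) + B (y j) (B (y i) (sg (insert q P) n)) =
        A (L.b11 (y i) (y j)) (sg (insert q P) n) := by
      intro i j hij
      rcases lt_trichotomy i q with hi | rfl | hi
      · have := c1 h (hlt i hi) (y j) n
        rw [L.symm (y i) (y j), ← this, add_comm]
      · rw [hv]
        rcases hij.eq_or_lt with rfl | hij'
        · have e1 := congrArg (B (y i)) (hoo (y i) (y i))
          have e2 := heo (L.b11 (y i) (y i)) (y i)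
          rw [L.jac111, map_zero, LinearMap.zero_apply] at e2
          rw [map_add] at e1
          linear_combination (norm := module) e1 - e2
        · have E1 := congrArg (B (y i)) (hoo (y j) (y i))
          have E2 := (hup j hij').1 (y i)
          have E3 := congrArg (B (y j)) (hoo (y i) (y i))
          have E4 := heo (L.b11 (y i) (y i)) (y j)
          have E5 := heo (L.b11 (y i) (y j)) (y i)
          have E6 := (jac_pol L (y i) (y i) (y j)).resolve_right h2
          have E7 : B (L.b01 (L.b11 (y i) (y i)) (y j)) w +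
              (2 : k) • B (L.b01 (L.b11 (y i) (y j)) (y i)) w = 0 := by
            rw [← LinearMap.smul_apply, ← LinearMap.add_apply, ← map_smul, ← map_add]
            have : L.b01 (L.b11 (y i) (y i)) (y j) + (2 : k) • L.b01 (L.b11 (y i) (y j)) (y i) =
                0 := by
              rw [← E6]; module
            rw [this]; simp
          rw [L.symm (y j) (y i)] at E1
          simp only [map_add] at E1 E3
          apply half
          linear_combination (norm := module) (2 : k) • E1 - E2 + E3 - E4 - (2 : k) • E5 - E7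
      · have hj := hi.trans_le hij
        rw [hv]
        have G1 := congrArg (B (y i)) (hoo (y j) (y q))
        have G2 := (hup j hj).1 (y i)
        have G3 := congrArg (B (y j)) (hoo (y i) (y q))
        have G4 := (hup i hi).1 (y j)
        have G5 := congrArg (B (y q)) (hoo (y i) (y j))
        have G6 := heo (L.b11 (y i) (y j)) (y q)
        have G7 := heo (L.b11 (y i) (y q)) (y j)
        have G8 := heo (L.b11 (y j) (y q)) (y i)
        have E6 := (jac_pol L (y i) (y j) (y q)).resolve_right h2
        have G9 : B (L.b01 (L.b11 (y i) (y j)) (y q)) w + B (L.b01 (L.b11 (y j) (y q)) (y i)) w +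
            B (L.b01 (L.b11 (y i) (y q)) (y j)) w = 0 := by
          rw [← LinearMap.add_apply, ← LinearMap.add_apply, ← map_add, ← map_add, E6]
          simp
        simp only [map_add] at G1 G3 G5
        linear_combination (norm := module) G1 - G2 + G3 - G4 + G5 - G6 - G7 - G8 - G9
    intro x x'
    refine bind y (fun x => B x (B x' (sg (insert q P) n)) + B x' (B x (sg (insert q P) n)) =
      A (L.b11 x x') (sg (insert q P) n)) ?_ ?_ ?_ ?_ x
    · intro i
      refine bind y (fun x' => B (y i) (B x' (sg (insert q P) n)) +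
        B x' (B (y i) (sg (insert q P) n)) =
        A (L.b11 (y i) x') (sg (insert q P) n)) ?_ ?_ ?_ ?_ x'
      · intro j
        rcases le_total i j with hij | hij
        · exact main i j hij
        · rw [add_comm, L.symm]
          exact main j i hij
      · simp
      · intro z z' hz hz'
        simp only [map_add, LinearMap.add_apply]
        rw [← hz, ← hz']; abel
      · intro c z hz
        simp only [map_smul, LinearMap.smul_apply]
        rw [← hz, smul_add]
    · simp
    · intro z z' hz hz'
      simp only [map_add, LinearMap.add_apply]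
      rw [← hz, ← hz']; abel
    · intro c z hz
      simp only [map_smul, LinearMap.smul_apply]
      rw [← hz, smul_add]
  · -- even-odd
    intro a x
    refine bind y (fun x => A a (B x (sg (insert q P) n)) - B x (A a (sg (insert q P) n)) =
      B (L.b01 a x) (sg (insert q P) n)) ?_ ?_ ?_ ?_ x
    · intro i
      rcases lt_trichotomy i q with hi | rfl | hi
      · exact c2 h (hlt i hi) a n
      · rw [hv]
        have e1 := congrArg (A a) (hoo (y i) (y i))
        have e2 := congrArg (B (y i)) (heo a (y i))
        have e3 := (hAw a).1 (y i) (y i)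
        have e4 := hee a (L.b11 (y i) (y i))
        have e5 := hoo (L.b01 a (y i)) (y i)
        rw [L.jac011, L.symm (y i) (L.b01 a (y i)), map_add, LinearMap.add_apply] at e4
        simp only [map_add, map_sub] at e1 e2
        apply half
        linear_combination (norm := module) e1 - (2 : k) • e2 - e3 + e4 - (2 : k) • e5
      · rw [hv]
        have e1 := congrArg (A a) (hoo (y i) (y q))
        have e2 := (hup i hi).2 a
        have e3 := congrArg (B (y i)) (heo a (y q))
        have e4 := (hAw a).1 (y i) (y q)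
        have e5 := congrArg (B (y q)) (heo a (y i))
        have e6 := hoo (L.b01 a (y q)) (y i)
        have e7 := hoo (L.b01 a (y i)) (y q)
        have e8 := hee a (L.b11 (y i) (y q))
        rw [L.jac011, L.symm (y i) (L.b01 a (y q)), map_add, LinearMap.add_apply] at e8
        simp only [map_add, map_sub] at e1 e3 e5
        linear_combination (norm := module) e1 - e2 - e3 - e4 - e5 - e6 - e7 + e8
    · simp
    · intro z z' hz hz'
      simp only [map_add, LinearMap.add_apply]
      rw [← hz, ← hz']; abel
    · intro c z hz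
      simp only [map_smul, LinearMap.smul_apply]
      rw [← hz, smul_sub]
  · -- even-even
    intro a b
    rw [hv]
    have e1 := congrArg (A a) (heo b (y q))
    have e2 := (hAw b).2.1 a (y q)
    have e3 := heo a (L.b01 b (y q))
    have e1' := congrArg (A b) (heo a (y q))
    have e2' := (hAw a).2.1 b (y q)
    have e3' := heo b (L.b01 a (y q))
    have e4 := congrArg (B (y q)) (hee a b)
    have e5 := heo (L.b00 a b) (y q)
    rw [L.jac001 a b, map_add, LinearMap.add_apply] at e3
    simp only [map_sub] at e1 e1' e4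
    linear_combination (norm := module) e1 + e2 + e3 - e1' - e2' - e3' + e4 - e5

theorem good_all (h2 : (2 : k) ≠ 0) (h : Rec L m y n0 A B)
    (hn0 : ∀ a b, n0 (L.b00 a b) = n0 a * n0 b - n0 b * n0 a) :
    ∀ d : ℕ, filt k m N d ≤ Good L A B := by
  intro d
  induction d with
  | zero =>
    refine filt_le _ ?_
    intro S hS n
    have : S = ∅ := Finset.card_eq_zero.1 (Nat.le_zero.1 hS)
    rw [this]
    exact good_empty h hn0 n
  | succ d ih =>
    refine filt_le _ ?_
    intro S hS n
    rcases S.eq_empty_or_nonempty with rfl | hne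
    · exact good_empty h hn0 n
    · have hmem := S.min'_mem hne
      have hlt : ∀ l ∈ S.erase (S.min' hne), S.min' hne < l := by
        intro l hl
        rw [Finset.mem_erase] at hl
        exact lt_of_le_of_ne (S.min'_le l hl.2) (Ne.symm hl.1)
      have hcard : (S.erase (S.min' hne)).card ≤ d := by
        rw [Finset.card_erase_of_mem hmem]; omega
      have := good_insert h2 h ih hcard hlt n
      rwa [Finset.insert_erase hmem] at this

end Pool.Agent.U450.SV
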