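import Pool.Agent.U450.SV.PBW2

/-! Relative Poincaré–Birkhoff–Witt theorem, part 3: construction of the operators. -/

set_option autoImplicit false
set_option linter.unusedSectionVars false

universe u

namespace Pool.Agent.U450.SV

variable {k g0 g1 N : Type u} [Field k] [AddCommGroup g0] [Module k g0]
  [AddCommGroup g1] [Module k g1] [AddCommGroup N] [Module k N]

/-- `n ↦ y_S ⊗ n` as a linear map -/
noncomputable def sgL (k : Type u) [Field k] (m : ℕ) (N : Type u) [AddCommGroup N] [Module k N]
    (S : Finset (Fin m)) : N →ₗ[k] (Finset (Fin m) → N) := LinearMap.single k (fun _ => N) S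

theorem sgL_apply {m : ℕ} (S : Finset (Fin m)) (n : N) : sgL k m N S n = sg S n := rfl

/-- the endomorphism with prescribed restrictions -/
noncomputable def mkE {m : ℕ} (f : Finset (Fin m) → (N →ₗ[k] (Finset (Fin m) → N))) :
    Module.End k (Finset (Fin m) → N) := LinearMap.lsum k (fun _ => N) k f

theorem mkE_single {m : ℕ} (f : Finset (Fin m) → (N →ₗ[k] (Finset (Fin m) → N)))
    (S : Finset (Fin m)) (n : N) : mkE f (sg S n) = f S n := by
  rw [mkE, LinearMap.lsum_apply, LinearMap.sum_apply]
  rw [Finset.sum_eq_single S]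
  · simp [sg]
  · intro T _ hT
    simp [sg, Pi.single_eq_of_ne hT]
  · intro h
    exact absurd (Finset.mem_univ S) h

theorem mkE_ext {m : ℕ} {f g : Module.End k (Finset (Fin m) → N)}
    (h : ∀ S n, f (sg S n) = g (sg S n)) : f = g := by
  apply LinearMap.pi_ext'
  intro S
  apply LinearMap.ext
  intro n
  exact h S n

variable (L : LieSuper k g0 g1) {m : ℕ} (y : Module.Basis (Fin m) k g1)
  (n0 : g0 →ₗ[k] Module.End k N)

/-- one step for the even operators -/
noncomputable def stepA (A : g0 →ₗ[k] Module.End k (Finset (Fin m) → N))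
    (B : g1 →ₗ[k] Module.End k (Finset (Fin m) → N)) :
    g0 →ₗ[k] Module.End k (Finset (Fin m) → N) where
  toFun a := mkE (fun S => if h : S.Nonempty then
    (B (y (S.min' h)) * A a + B (L.b01 a (y (S.min' h)))) ∘ₗ sgL k m N (S.erase (S.min' h))
    else sgL k m N ∅ ∘ₗ n0 a)
  map_add' a b := by
    apply mkE_ext
    intro S n
    rw [LinearMap.add_apply, mkE_single, mkE_single, mkE_single]
    by_cases h : S.Nonempty
    · simp only [dif_pos h, LinearMap.comp_apply, LinearMap.add_apply, map_add,
        Module.End.mul_apply]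
      abel
    · simp only [dif_neg h, LinearMap.comp_apply, LinearMap.add_apply, map_add]
  map_smul' c a := by
    apply mkE_ext
    intro S n
    rw [RingHom.id_apply, LinearMap.smul_apply, mkE_single, mkE_single]
    by_cases h : S.Nonempty
    · simp only [dif_pos h, LinearMap.comp_apply, LinearMap.add_apply, map_smul,
        Module.End.mul_apply, LinearMap.smul_apply, smul_add]
    · simp only [dif_neg h, LinearMap.comp_apply, map_smul, LinearMap.smul_apply]

/-- one step for the odd operators -/
noncomputable def stepB (A : g0 →ₗ[k] Module.End k (Finset (Fin m) → N))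
    (B : g1 →ₗ[k] Module.End k (Finset (Fin m) → N)) :
    g1 →ₗ[k] Module.End k (Finset (Fin m) → N) :=
  y.constr k (fun i => mkE (fun S => if h : S.Nonempty then
    (if i < S.min' h then sgL k m N (insert i S) else
      if i = S.min' h then ((2 : k)⁻¹ • A (L.b11 (y i) (y i))) ∘ₗ sgL k m N (S.erase (S.min' h))
      else eop k m N i ∘ₗ sgL k m N S -
        (B (y (S.min' h)) * (B (y i) - eop k m N i)) ∘ₗ sgL k m N (S.erase (S.min' h)) +
        A (L.b11 (y i) (y (S.min' h))) ∘ₗ sgL k m N (S.erase (S.min' h)))
    else sgL k m N (insert i S)))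

/-- the stages -/
noncomputable def AB : ℕ → (g0 →ₗ[k] Module.End k (Finset (Fin m) → N)) ×
    (g1 →ₗ[k] Module.End k (Finset (Fin m) → N))
  | 0 => (stepA L y n0 0 0, y.constr k (fun i => eop k m N i))
  | n + 1 => (stepA L y n0 (AB n).1 (AB n).2, stepB L y (AB n).1 (AB n).2)

section steps
variable {L} {y} {n0}
variable {A : g0 →ₗ[k] Module.End k (Finset (Fin m) → N)}
  {B : g1 →ₗ[k] Module.End k (Finset (Fin m) → N)}

theorem min_ins {j : Fin m} {S : Finset (Fin m)} (hj : ∀ l ∈ S, j < l)
    (h : (insert j S).Nonempty) : (insert j S).min' h = j := by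
  apply le_antisymm
  · exact Finset.min'_le _ _ (Finset.mem_insert_self _ _)
  · apply Finset.le_min'
    intro l hl
    rw [Finset.mem_insert] at hl
    rcases hl with rfl | hl
    · exact le_rfl
    · exact (hj l hl).le

theorem erase_ins {j : Fin m} {S : Finset (Fin m)} (hj : ∀ l ∈ S, j < l) :
    (insert j S).erase j = S := by
  apply Finset.erase_insert
  intro h
  exact lt_irrefl _ (hj j h)

theorem stepA_empty (a : g0) (n : N) : stepA L y n0 A B a (sg ∅ n) = sg ∅ (n0 a n) := by
  show mkE _ (sg ∅ n) = _
  rw [mkE_single, dif_neg (by simp)]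
  rfl

theorem stepA_ins (a : g0) {j : Fin m} {S : Finset (Fin m)} (hj : ∀ l ∈ S, j < l) (n : N) :
    stepA L y n0 A B a (sg (insert j S) n) =
      B (y j) (A a (sg S n)) + B (L.b01 a (y j)) (sg S n) := by
  show mkE _ (sg (insert j S) n) = _
  have h : (insert j S).Nonempty := Finset.insert_nonempty _ _
  rw [mkE_single, dif_pos h, min_ins hj h, erase_ins hj]
  rfl

theorem stepB_lt {i : Fin m} {S : Finset (Fin m)} (hi : ∀ l ∈ S, i < l) (n : N) :
    stepB L y A B (y i) (sg S n) = sg (insert i S) n := by
  rw [stepB, Module.Basis.constr_basis, mkE_single]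
  by_cases h : S.Nonempty
  · rw [dif_pos h, if_pos (hi _ (S.min'_mem h))]
    rfl
  · rw [dif_neg h]
    rfl

theorem stepB_eq {i : Fin m} {S : Finset (Fin m)} (hi : ∀ l ∈ S, i < l) (n : N) :
    stepB L y A B (y i) (sg (insert i S) n) =
      (2 : k)⁻¹ • A (L.b11 (y i) (y i)) (sg S n) := by
  have h : (insert i S).Nonempty := Finset.insert_nonempty _ _
  rw [stepB, Module.Basis.constr_basis, mkE_single, dif_pos h, min_ins hi h, erase_ins hi,
    if_neg (lt_irrefl _), if_pos rfl]
  rfl

theorem stepB_gt {i j : Fin m} {S : Finset (Fin m)} (hj : ∀ l ∈ S, j < l) (hij : j < i) (n : N) :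
    stepB L y A B (y i) (sg (insert j S) n) = eop k m N i (sg (insert j S) n) -
      B (y j) (B (y i) (sg S n) - eop k m N i (sg S n)) + A (L.b11 (y i) (y j)) (sg S n) := by
  have h : (insert j S).Nonempty := Finset.insert_nonempty _ _
  rw [stepB, Module.Basis.constr_basis, mkE_single, dif_pos h, min_ins hj h, erase_ins hj,
    if_neg (not_lt.2 hij.le), if_neg hij.ne']
  rfl

end steps

/-- case distinction for subsets -/
theorem ins_cases (S : Finset (Fin m)) : S = ∅ ∨ ∃ (j : Fin m) (P : Finset (Fin m)),
    S = insert j P ∧ (∀ l ∈ P, j < l) ∧ P.card + 1 = S.card := by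
  rcases S.eq_empty_or_nonempty with rfl | hne
  · exact Or.inl rfl
  · right
    have hmem := S.min'_mem hne
    refine ⟨S.min' hne, S.erase (S.min' hne), (Finset.insert_erase hmem).symm, ?_, ?_⟩
    · intro l hl
      rw [Finset.mem_erase] at hl
      exact lt_of_le_of_ne (S.min'_le l hl.2) (Ne.symm hl.1)
    · exact Finset.card_erase_add_one hmem

theorem dgs (n : ℕ) :
    (∀ (i : Fin m) (d : ℕ), ∀ v ∈ filt k m N d,
      (AB L y n0 n).2 (y i) v - eop k m N i v ∈ filt k m N d) ∧
    (∀ a (d : ℕ), ∀ v ∈ filt k m N d, (AB L y n0 n).1 a v ∈ filt k m N d) := by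
  have up1 : ∀ B : g1 →ₗ[k] Module.End k (Finset (Fin m) → N),
      (∀ (i : Fin m) (d : ℕ), ∀ v ∈ filt k m N d, B (y i) v - eop k m N i v ∈ filt k m N d) →
      ∀ (x : g1) (d : ℕ), ∀ v ∈ filt k m N d, B x v ∈ filt k m N (d + 1) := by
    intro B hB x d v hv
    refine bind y (fun x => B x v ∈ filt k m N (d + 1)) ?_ ?_ ?_ ?_ x
    · intro i
      have e : B (y i) v = (B (y i) v - eop k m N i v) + eop k m N i v := by abel
      rw [e]
      exact Submodule.add_mem _ (filt_mono (Nat.le_succ d) (hB i d v hv)) (eop_mem_filt i hv)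
    · simp
    · intro x x' hx hx'
      rw [map_add, LinearMap.add_apply]
      exact Submodule.add_mem _ hx hx'
    · intro c x hx
      rw [map_smul, LinearMap.smul_apply]
      exact Submodule.smul_mem _ _ hx
  -- it is enough to treat `y_S ⊗ n`
  have redB : ∀ B : g1 →ₗ[k] Module.End k (Finset (Fin m) → N),
      (∀ (i : Fin m) (S : Finset (Fin m)) (x : N),
        B (y i) (sg S x) - eop k m N i (sg S x) ∈ filt k m N S.card) →
      (∀ (i : Fin m) (d : ℕ), ∀ v ∈ filt k m N d, B (y i) v - eop k m N i v ∈ filt k m N d) := by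
    intro B h i d v hv
    have := filt_le (d := d) ((filt k m N d).comap (B (y i) - eop k m N i)) (by
      intro S hS x
      rw [Submodule.mem_comap, LinearMap.sub_apply]
      exact filt_mono hS (h i S x)) hv
    rwa [Submodule.mem_comap, LinearMap.sub_apply] at this
  have redA : ∀ A : g0 →ₗ[k] Module.End k (Finset (Fin m) → N),
      (∀ a (S : Finset (Fin m)) (x : N), A a (sg S x) ∈ filt k m N S.card) →
      (∀ a (d : ℕ), ∀ v ∈ filt k m N d, A a v ∈ filt k m N d) := by
    intro A h a d v hv
    have := filt_le (d := d) ((filt k m N d).comap (A a)) (by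
      intro S hS x
      rw [Submodule.mem_comap]
      exact filt_mono hS (h a S x)) hv
    rwa [Submodule.mem_comap] at this
  induction n with
  | zero =>
    constructor
    · apply redB
      intro i S x
      show (y.constr k (fun i => eop k m N i)) (y i) (sg S x) - _ ∈ _
      rw [Module.Basis.constr_basis, sub_self]
      exact Submodule.zero_mem _
    · apply redA
      intro a S x
      show stepA L y n0 0 0 a (sg S x) ∈ _
      rcases ins_cases S with rfl | ⟨j, P, rfl, hj, hc⟩
      · rw [stepA_empty]
        exact single_mem_filt le_rfl _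
      · rw [stepA_ins a hj]
        simp
  | succ n ih =>
    obtain ⟨ihB, ihA⟩ := ih
    have ihB' := up1 _ ihB
    constructor
    · apply redB
      intro i S x
      show stepB L y _ _ (y i) (sg S x) - _ ∈ _
      rcases ins_cases S with rfl | ⟨j, P, rfl, hj, hc⟩
      · have hi : ∀ l ∈ (∅ : Finset (Fin m)), i < l := by simp
        rw [stepB_lt hi, eop_lt hi, sub_self]
        exact Submodule.zero_mem _
      · rcases lt_trichotomy i j with hij | rfl | hij
        · have hi : ∀ l ∈ insert j P, i < l := by
            intro l hl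
            rw [Finset.mem_insert] at hl
            rcases hl with rfl | hl
            · exact hij
            · exact hij.trans (hj l hl)
          rw [stepB_lt hi, eop_lt hi, sub_self]
          exact Submodule.zero_mem _
        · rw [stepB_eq hj, eop_single, if_pos (Finset.mem_insert_self _ _), sub_zero, ← hc]
          exact Submodule.smul_mem _ _ (filt_mono (Nat.le_succ _)
            (ihA _ _ _ (single_mem_filt le_rfl _)))
        · rw [stepB_gt hj hij, ← hc]
          have e : ∀ a b c : Finset (Fin m) → N, a - b + c - a = c - b := by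
            intro a b c; abel
          rw [e]
          refine Submodule.sub_mem _ ?_ ?_
          · exact filt_mono (Nat.le_succ _) (ihA _ _ _ (single_mem_filt le_rfl _))
          · exact ihB' _ _ _ (ihB _ _ _ (single_mem_filt le_rfl _))
    · apply redA
      intro a S x
      show stepA L y n0 _ _ a (sg S x) ∈ _
      rcases ins_cases S with rfl | ⟨j, P, rfl, hj, hc⟩
      · rw [stepA_empty]
        exact single_mem_filt le_rfl _
      · rw [stepA_ins a hj, ← hc]
        refine Submodule.add_mem _ ?_ ?_
        · exact ihB' _ _ _ (ihA _ _ _ (single_mem_filt le_rfl _))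
        · exact ihB' _ _ _ (single_mem_filt le_rfl _)

theorem stg (n : ℕ) : ∀ v ∈ filt k m N n,
    (∀ a, (AB L y n0 (n + 1)).1 a v = (AB L y n0 n).1 a v) ∧
    (∀ x, (AB L y n0 (n + 1)).2 x v = (AB L y n0 n).2 x v) := by
  -- reduction to `y_S ⊗ n` and the basis
  have red : ∀ n : ℕ, (∀ S : Finset (Fin m), S.card ≤ n → ∀ z : N,
      (∀ a, (AB L y n0 (n + 1)).1 a (sg S z) = (AB L y n0 n).1 a (sg S z)) ∧
      (∀ i, (AB L y n0 (n + 1)).2 (y i) (sg S z) = (AB L y n0 n).2 (y i) (sg S z))) →
      ∀ v ∈ filt k m N n,
      (∀ a, (AB L y n0 (n + 1)).1 a v = (AB L y n0 n).1 a v) ∧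
      (∀ x, (AB L y n0 (n + 1)).2 x v = (AB L y n0 n).2 x v) := by
    intro n h v hv
    constructor
    · intro a
      have := filt_le (d := n) (LinearMap.ker ((AB L y n0 (n + 1)).1 a - (AB L y n0 n).1 a)) (by
        intro S hS z
        rw [LinearMap.mem_ker, LinearMap.sub_apply, (h S hS z).1 a, sub_self]) hv
      rw [LinearMap.mem_ker, LinearMap.sub_apply] at this
      exact sub_eq_zero.1 this
    · intro x
      refine bind y (fun x => (AB L y n0 (n + 1)).2 x v = (AB L y n0 n).2 x v) ?_ ?_ ?_ ?_ x
      · intro i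
        have := filt_le (d := n)
          (LinearMap.ker ((AB L y n0 (n + 1)).2 (y i) - (AB L y n0 n).2 (y i))) (by
          intro S hS z
          rw [LinearMap.mem_ker, LinearMap.sub_apply, (h S hS z).2 i, sub_self]) hv
        rw [LinearMap.mem_ker, LinearMap.sub_apply] at this
        exact sub_eq_zero.1 this
      · simp
      · intro x x' hx hx'
        rw [map_add, map_add, LinearMap.add_apply, LinearMap.add_apply, hx, hx']
      · intro c x hx
        rw [map_smul, map_smul, LinearMap.smul_apply, LinearMap.smul_apply, hx]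
  induction n with
  | zero =>
    apply red
    intro S hS z
    have : S = ∅ := Finset.card_eq_zero.1 (Nat.le_zero.1 hS)
    subst this
    constructor
    · intro a
      show stepA L y n0 _ _ a _ = stepA L y n0 _ _ a _
      rw [stepA_empty, stepA_empty]
    · intro i
      have hi : ∀ l ∈ (∅ : Finset (Fin m)), i < l := by simp
      show stepB L y _ _ (y i) _ = (y.constr k (fun i => eop k m N i)) (y i) _
      rw [Module.Basis.constr_basis, stepB_lt hi, eop_lt hi]
  | succ n ih =>
    apply red
    intro S hS z
    rcases ins_cases S with rfl | ⟨j, P, rfl, hj, hc⟩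
    · constructor
      · intro a
        show stepA L y n0 _ _ a _ = stepA L y n0 _ _ a _
        rw [stepA_empty, stepA_empty]
      · intro i
        have hi : ∀ l ∈ (∅ : Finset (Fin m)), i < l := by simp
        show stepB L y _ _ (y i) _ = stepB L y _ _ (y i) _
        rw [stepB_lt hi, stepB_lt hi]
    · have hP : P.card ≤ n := by omega
      have hm : sg P z ∈ filt k m N n := single_mem_filt hP z
      obtain ⟨dB, dA⟩ := dgs L y n0 n
      constructor
      · intro a
        show stepA L y n0 _ _ a _ = stepA L y n0 _ _ a _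
        rw [stepA_ins a hj, stepA_ins a hj, (ih _ hm).1, (ih _ hm).2,
          (ih _ (dA a n _ hm)).2]
      · intro i
        show stepB L y _ _ (y i) _ = stepB L y _ _ (y i) _
        rcases lt_trichotomy i j with hij | rfl | hij
        · have hi : ∀ l ∈ insert j P, i < l := by
            intro l hl
            rw [Finset.mem_insert] at hl
            rcases hl with rfl | hl
            · exact hij
            · exact hij.trans (hj l hl)
          rw [stepB_lt hi, stepB_lt hi]
        · rw [stepB_eq hj, stepB_eq hj, (ih _ hm).1]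
        · rw [stepB_gt hj hij, stepB_gt hj hij, (ih _ hm).1, (ih _ hm).2,
            (ih _ (dB i n _ hm)).2]

theorem exists_rec (h2 : (2 : k) ≠ 0) : ∃ (A : g0 →ₗ[k] Module.End k (Finset (Fin m) → N))
    (B : g1 →ₗ[k] Module.End k (Finset (Fin m) → N)), Rec L m y n0 A B := by
  have hs := stg L y n0 m
  have hA : ∀ a v, (AB L y n0 m).1 a v = (AB L y n0 (m + 1)).1 a v :=
    fun a v => ((hs v (mem_filt_top v)).1 a).symm
  have hB : ∀ x v, (AB L y n0 m).2 x v = (AB L y n0 (m + 1)).2 x v :=
    fun x v => ((hs v (mem_filt_top v)).2 x).symm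
  obtain ⟨dB, dA⟩ := dgs L y n0 m
  refine ⟨(AB L y n0 m).1, (AB L y n0 m).2, ?_, ?_, ?_, ?_, ?_, dA, dB⟩
  · intro a n
    rw [hA]
    exact stepA_empty a n
  · intro a j S n hj
    rw [hA]
    exact stepA_ins a hj n
  · intro i S n hi
    rw [hB]
    exact stepB_lt hi n
  · intro i S n hi
    rw [hB]
    have := stepB_eq (L := L) (y := y) (A := (AB L y n0 m).1) (B := (AB L y n0 m).2) hi n
    show (2 : k) • stepB L y _ _ (y i) _ = _
    rw [this, smul_smul, mul_inv_cancel₀ h2, one_smul]
  · intro i j S n hj hij
    rw [hB (y i) (sg (insert j S) n)]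
    exact stepB_gt hj hij n

end Pool.Agent.U450.SV
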